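import Mathlib
import Pool.Agent.H74.IA.Good

/-!
# Graded inversion of adjunction

Let `R` be an `ℕ`-graded algebra (essentially) of finite type over a field `k` of characteristic
zero, the coordinate ring of an affine variety `X` with a contracting action of the multiplicative
group.  Let `t` be a homogeneous nonzerodivisor of positive degree, the equation of an invariant
Cartier divisor `H` of `X`, such that `R ⧸ (t)` is a domain, and let `x i` be homogeneous elements of
`R` such that a power of `t` lies in the ideal that they generate, for example homogeneous generators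
of the ideal of all elements of positive degree, which define the fixed locus `Z`.

If for all `p ≤ m` the module of Kähler `p`-forms of `R ⧸ (t)` is torsion-free and its local
cohomology with support in `Z` vanishes in all positive degrees, then for all `p ≤ m` the same holds
for the module of Kähler `p`-forms of `R`.
-/

namespace Pool.Agent.Results.MP_20a8a0_ag.GradedAdjunction

open Pool.Agent.H74.IA

theorem result {k : Type*} [Field k] [CharZero k] {R : Type*} [CommRing R] [Algebra k R]
    [Algebra.EssFiniteType k R] (𝒜 : ℕ → Submodule k R) [GradedAlgebra 𝒜]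
    {d : ℕ} (hd : 0 < d) {t : R} (htd : t ∈ 𝒜 d) (ht : t ∈ nonZeroDivisors R)
    [IsDomain (R ⧸ Ideal.span {t})]
    {ι : Type*} [Fintype ι] [LinearOrder ι] {x : ι → R} {w : ι → ℕ} (hx : ∀ i, x i ∈ 𝒜 (w i))
    (htx : t ∈ (Ideal.span (Set.range x)).radical) (m : ℕ)
    (h : ∀ p ≤ m, GoodForms (quotDeg 𝒜 (Ideal.span {t}))
      (fun i => Ideal.Quotient.mk (Ideal.span {t}) (x i)) w p) :
    ∀ p ≤ m, GoodForms 𝒜 x w p :=
  goodForms_of_quotient 𝒜 hd htd ht hx htx m h

end Pool.Agent.Results.MP_20a8a0_ag.GradedAdjunction
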