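import Mathlib
import Pool.Agent.H71.Local

/-!
# Inversion of adjunction for reflexivity of Kähler differentials

Let `A` be a local ring essentially of finite type over a field `k` of characteristic zero (think of
`A = O_{X,x}` for a point `x` of an effective Cartier divisor `H` in a variety `X`), let `t` be a
nonzerodivisor in the maximal ideal (the local equation of `H`) and suppose that the local ring
`A ⧸ (t)` of `H` is a normal domain.  If the modules of Kähler `p`-forms of `A ⧸ (t)` are reflexive
for all `p ≤ m`, then so are the modules of Kähler `p`-forms of `A` for all `p ≤ m`.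
-/

namespace Pool.Agent.Results.MP_20a8a0_ag.ReflexiveAdjunction

theorem result {k : Type*} [Field k] [CharZero k] {A : Type*} [CommRing A] [IsLocalRing A]
    [Algebra k A] [Algebra.EssFiniteType k A]
    (t : A) (ht : t ∈ nonZeroDivisors A) (htm : t ∈ IsLocalRing.maximalIdeal A)
    [IsDomain (A ⧸ Ideal.span {t})] [IsIntegrallyClosed (A ⧸ Ideal.span {t})] (m : ℕ)
    (h : ∀ p ≤ m, Module.IsReflexive (A ⧸ Ideal.span {t})
      (⋀[A ⧸ Ideal.span {t}]^p Ω[(A ⧸ Ideal.span {t})⁄k])) :
    ∀ p ≤ m, Module.IsReflexive A (⋀[A]^p Ω[A⁄k]) :=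
  Pool.Agent.H71.reflexive_kaehler t ht htm m h

end Pool.Agent.Results.MP_20a8a0_ag.ReflexiveAdjunction
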